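import Pool.Agent.MP_582538_al.W.Main

set_option autoImplicit false

namespace Pool.Agent.Results.MP_582538_al.Rigidity

open IsLocalRing

section Defs

variable (R : Type) [CommRing R] [IsLocalRing R]

/-- The submodule `𝔪^a M` of `M`. -/
abbrev pw (M : Type) [AddCommGroup M] [Module R M] (a : ℕ) : Submodule R M :=
  maximalIdeal R ^ a • ⊤

/-- The graded piece `𝔪^a M / 𝔪^(a+1) M`. -/
def gr (M : Type) [AddCommGroup M] [Module R M] (a : ℕ) : Type :=
  ↥(pw R M a) ⧸ (pw R M (a + 1)).comap (pw R M a).subtype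

/-- The quotient group structure. -/
instance grGroup (M : Type) [AddCommGroup M] [Module R M] (a : ℕ) : AddCommGroup (gr R M a) :=
  Submodule.Quotient.addCommGroup _

/-- The quotient module structure. -/
instance grModule (M : Type) [AddCommGroup M] [Module R M] (a : ℕ) : Module R (gr R M a) :=
  Submodule.Quotient.module _

variable {R}

/-- The map `𝔪^a M / 𝔪^(a+1) M → 𝔪^(a+1) N / 𝔪^(a+2) N` induced by a map `f` with
`f(M) ⊆ 𝔪 N`. -/
def grMap {M N : Type} [AddCommGroup M] [Module R M] [AddCommGroup N] [Module R N]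
    (f : M →ₗ[R] N) (hf : LinearMap.range f ≤ maximalIdeal R • ⊤) (a : ℕ) :
    gr R M a →ₗ[R] gr R N (a + 1) :=
  Submodule.mapQ _ _
    (f.restrict fun _ hx => Pool.Agent.MP_582538_al.map_mem_pow_succ f hf hx)
    fun _ hx => Pool.Agent.MP_582538_al.map_mem_pow_succ f hf hx

/-- For a minimal complex `F` with differentials `d n : F_(n+1) → F_n`, `HZero d hmin i a` says
that the linear part `lin F` has no homology at its piece `𝔪^a F_i / 𝔪^(a+1) F_i`. Nothing maps
to a piece with `a = 0`, and the differential leaving a piece with `i = 0` is zero. So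
`H_i(lin F) = 0` means `∀ a, HZero d hmin i a`. -/
def HZero {F : ℕ → Type} [∀ n, AddCommGroup (F n)] [∀ n, Module R (F n)]
    (d : ∀ n : ℕ, F (n + 1) →ₗ[R] F n)
    (hmin : ∀ n, LinearMap.range (d n) ≤ maximalIdeal R • ⊤) : ℕ → ℕ → Prop
  | 0, 0 => Subsingleton (gr R (F 0) 0)
  | 0, a + 1 => LinearMap.range (grMap (d 0) (hmin 0) a) = ⊤
  | n + 1, 0 => LinearMap.ker (grMap (d n) (hmin n) 0) = ⊥
  | n + 1, a + 1 => LinearMap.ker (grMap (d n) (hmin n) (a + 1)) =
      LinearMap.range (grMap (d (n + 1)) (hmin (n + 1)) a)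

end Defs

open Pool.Agent.MP_582538_al

section Aux

variable {R : Type} [CommRing R] [IsLocalRing R] {M N : Type} [AddCommGroup M]
  [Module R M] [AddCommGroup N] [Module R N]

/-- The class of an element of `𝔪^a M` (used in the proofs only). -/
def cl {a : ℕ} (x : M) (hx : x ∈ pw R M a) : gr R M a := Submodule.Quotient.mk ⟨x, hx⟩

theorem cl_surj {a : ℕ} (y : gr R M a) : ∃ x hx, cl x hx = y := by
  obtain ⟨x, hx⟩ := Submodule.Quotient.mk_surjective _ y
  exact ⟨x.1, x.2, hx⟩

theorem cl_eq_zero {a : ℕ} {x : M} (hx : x ∈ pw R M a) : cl x hx = 0 ↔ x ∈ pw R M (a + 1) :=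
  Submodule.Quotient.mk_eq_zero _

theorem cl_eq {a : ℕ} {x y : M} (hx : x ∈ pw R M a) (hy : y ∈ pw R M a) :
    cl x hx = cl y hy ↔ x - y ∈ pw R M (a + 1) :=
  Submodule.Quotient.eq _

theorem grMap_cl (f : M →ₗ[R] N) (hf : LinearMap.range f ≤ maximalIdeal R • ⊤) {a : ℕ} {x : M}
    (hx : x ∈ pw R M a) : grMap f hf a (cl x hx) = cl (f x) (map_mem_pow_succ f hf hx) := rfl

end Aux

/-- The vanishing in degree `n + 1` in the elementwise form of the frozen statement. -/
theorem hzero_iff {R : Type} [CommRing R] [IsLocalRing R] {F : ℕ → Type}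
    [∀ n, AddCommGroup (F n)] [∀ n, Module R (F n)] (d : ∀ n, F (n + 1) →ₗ[R] F n)
    (hex : ∀ n, LinearMap.ker (d n) = LinearMap.range (d (n + 1)))
    (hmin : ∀ n, LinearMap.range (d n) ≤ maximalIdeal R • ⊤) (n p : ℕ) :
    HZero d hmin (n + 1) p ↔ PP (maximalIdeal R) d n p := by
  constructor
  · intro h x hx hdx
    have h3 : grMap (d n) (hmin n) p (cl x hx) = 0 := by
      rw [grMap_cl, cl_eq_zero]
      exact hdx
    cases p with
    | zero => exact Submodule.mem_sup_left ((cl_eq_zero hx).mp (LinearMap.ker_eq_bot'.mp h _ h3))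
    | succ p =>
      obtain ⟨y, hy⟩ := (LinearMap.exact_iff.mpr h _).mp h3
      obtain ⟨y, hy', rfl⟩ := cl_surj y
      rw [grMap_cl, eq_comm, cl_eq] at hy
      exact Submodule.mem_sup.mpr ⟨_, hy, _, ⟨y, hy', rfl⟩, by simp⟩
  · intro h
    cases p with
    | zero =>
      refine LinearMap.ker_eq_bot'.mpr fun x hx => ?_
      obtain ⟨x, hx', rfl⟩ := cl_surj x
      rw [grMap_cl, cl_eq_zero] at hx
      rw [cl_eq_zero]
      obtain ⟨y, hy, _, ⟨z, hz, rfl⟩, rfl⟩ := Submodule.mem_sup.mp (h x hx' hx)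
      exact Submodule.add_mem _ hy (map_mem_pow_succ _ (hmin _) hz)
    | succ a =>
      refine LinearMap.exact_iff.mp fun x => ?_
      obtain ⟨x, hx', rfl⟩ := cl_surj x
      rw [grMap_cl, cl_eq_zero]
      constructor
      · intro hx
        obtain ⟨y, hy, _, ⟨z, hz, rfl⟩, h3⟩ := Submodule.mem_sup.mp (h x hx' hx)
        refine ⟨cl z hz, ?_⟩
        rw [grMap_cl, eq_comm, cl_eq, ← h3, add_sub_cancel_right]
        exact hy
      · rintro ⟨y, hy⟩
        obtain ⟨y, hy', rfl⟩ := cl_surj y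
        rw [grMap_cl, eq_comm, cl_eq] at hy
        have h3 := map_mem_pow_succ (d n) (hmin n) hy
        rwa [map_sub, dd_zero hex, sub_zero] at h3

/-- Rigidity of the linear part of the minimal free resolution of the residue field: if
`H_ν(lin F) = 0` and there is homology at the piece `𝔪^p F_δ / 𝔪^(p+1) F_δ` with `δ ≥ 1`, then
`ν` is straddled by two degrees `a` and `a + δ` with homology at pieces of orders `q` and
`q + p`. -/
theorem result (R : Type) [CommRing R] [IsLocalRing R] [IsNoetherianRing R]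
    (F : ℕ → Type) [∀ n, AddCommGroup (F n)] [∀ n, Module R (F n)] [∀ n, Module.Free R (F n)]
    [∀ n, Module.Finite R (F n)] (d : ∀ n, F (n + 1) →ₗ[R] F n)
    (ε : F 0 →ₗ[R] ResidueField R) (hε : Function.Surjective ε)
    (hker : LinearMap.ker ε = LinearMap.range (d 0))
    (hex : ∀ n, LinearMap.ker (d n) = LinearMap.range (d (n + 1)))
    (hmin : ∀ n, LinearMap.range (d n) ≤ maximalIdeal R • ⊤)
    (ν δ p : ℕ) (hν : ∀ a, HZero d hmin ν a) (hδ : 1 ≤ δ) (hne : ¬ HZero d hmin δ p) :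
    ∃ a q, a < ν ∧ ν < a + δ ∧ ¬ HZero d hmin a q ∧ ¬ HZero d hmin (a + δ) (q + p) := by
  have h00 : ¬ HZero d hmin 0 0 := by
    intro h
    obtain ⟨x, hx⟩ := hε 1
    have h0 : x ∈ pw R (F 0) 0 := by
      rw [pw, pow_zero, Ideal.one_eq_top, Submodule.top_smul]
      trivial
    have h2 : x ∈ maximalIdeal R ^ (0 + 1) • (⊤ : Submodule R (F 0)) :=
      (cl_eq_zero h0).mp (h.elim _ _)
    rw [zero_add, pow_one, ← ker_residue] at h2
    exact one_ne_zero (hx.symm.trans (kill_smul_top (k := ResidueField R) ε h2))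
  by_contra hcon
  obtain ⟨e, rfl⟩ : ∃ e, δ = e + 1 := ⟨δ - 1, by omega⟩
  cases ν with
  | zero => exact h00 (hν 0)
  | succ n =>
    refine hne ((hzero_iff d hex hmin e p).mpr (straddle_free d ε hε hker hex hmin n
      (fun a => (hzero_iff d hex hmin n a).mp (hν a)) e p fun q i h1 h2 => ?_))
    by_cases h3 : HZero d hmin (i + (e + 1)) (q + p)
    · exact Or.inl ((hzero_iff d hex hmin (i + e) _).mp h3)
    have h4 : HZero d hmin i q := by
      by_contra h4
      exact hcon ⟨i, q, by omega, by omega, h4, h3⟩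
    cases i with
    | zero => exact Or.inr (Or.inl ⟨rfl, fun hq => h00 (hq ▸ h4)⟩)
    | succ i => exact Or.inr (Or.inr ⟨i, rfl, (hzero_iff d hex hmin i q).mp h4⟩)

/-- Window form: `w` consecutive vanishing degrees anywhere force vanishing in degrees
`1, …, w`. -/
theorem window (R : Type) [CommRing R] [IsLocalRing R] [IsNoetherianRing R]
    (F : ℕ → Type) [∀ n, AddCommGroup (F n)] [∀ n, Module R (F n)] [∀ n, Module.Free R (F n)]
    [∀ n, Module.Finite R (F n)] (d : ∀ n, F (n + 1) →ₗ[R] F n)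
    (ε : F 0 →ₗ[R] ResidueField R) (hε : Function.Surjective ε)
    (hker : LinearMap.ker ε = LinearMap.range (d 0))
    (hex : ∀ n, LinearMap.ker (d n) = LinearMap.range (d (n + 1)))
    (hmin : ∀ n, LinearMap.range (d n) ≤ maximalIdeal R • ⊤)
    (ν w : ℕ) (h : ∀ i, ν ≤ i → i < ν + w → ∀ a, HZero d hmin i a) (δ : ℕ) (h1 : 1 ≤ δ)
    (h2 : δ ≤ w) (p : ℕ) : HZero d hmin δ p := by
  by_contra hne
  obtain ⟨a, q, h3, h4, _, h5⟩ :=
    result R F d ε hε hker hex hmin ν δ p (h ν le_rfl (by omega)) h1 hne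
  exact h5 (h _ (by omega) (by omega) _)

/-- The question of Herzog and Iyengar: finite linear defect of the residue field forces linear
defect zero. -/
theorem q1 (R : Type) [CommRing R] [IsLocalRing R] [IsNoetherianRing R]
    (F : ℕ → Type) [∀ n, AddCommGroup (F n)] [∀ n, Module R (F n)] [∀ n, Module.Free R (F n)]
    [∀ n, Module.Finite R (F n)] (d : ∀ n, F (n + 1) →ₗ[R] F n)
    (ε : F 0 →ₗ[R] ResidueField R) (hε : Function.Surjective ε)
    (hker : LinearMap.ker ε = LinearMap.range (d 0))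
    (hex : ∀ n, LinearMap.ker (d n) = LinearMap.range (d (n + 1)))
    (hmin : ∀ n, LinearMap.range (d n) ≤ maximalIdeal R • ⊤)
    (h : ∃ N, ∀ i, N ≤ i → ∀ a, HZero d hmin i a) (δ : ℕ) (h1 : 1 ≤ δ) (p : ℕ) :
    HZero d hmin δ p := by
  obtain ⟨N, h⟩ := h
  exact window R F d ε hε hker hex hmin N δ (fun i hi _ => h i hi) δ h1 le_rfl p

end Pool.Agent.Results.MP_582538_al.Rigidity
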